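import Mathlib

/-!
# A combinatorial lemma: the fibre relations imply nilpotency
-/

set_option autoImplicit false

namespace Pool.Agent.J4.H27.BB

/-- the merging map: the last block is joined to the block `j` -/
def mg {m : ℕ} (j : Fin (m + 1)) : Fin (m + 2) → Fin (m + 1) :=
  Fin.snoc (α := fun _ => Fin (m + 1)) id j

theorem snoc_comp_mg {m : ℕ} {D : Type} (w : Fin (m + 1) → D) (j : Fin (m + 1)) (x : Fin (m + 2)) :
    (Fin.snoc (α := fun _ => D) w (w j) : Fin (m + 2) → D) x = w (mg j x) := by
  unfold mg
  refine Fin.lastCases ?_ (fun i => ?_) x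
  · simp
  · simp

theorem cons_snoc {m : ℕ} {D : Type} (t0 : D) (y : Fin m → D) (t : D) :
    (Fin.cons (α := fun _ => D) t0 (Fin.snoc (α := fun _ => D) y t : Fin (m + 1) → D) :
      Fin (m + 2) → D) =
    Fin.snoc (α := fun _ => D) (Fin.cons (α := fun _ => D) t0 y : Fin (m + 1) → D) t :=
  Fin.cons_snoc_eq_snoc_cons (β := D) t0 y t

open Classical in
theorem inj_snoc {m : ℕ} {D : Type} [Fintype D] [DecidableEq D] (w : Fin (m + 1) → D) (t : D) :
    (if Function.Injective (Fin.snoc (α := fun _ => D) w t : Fin (m + 2) → D) then (1 : ℚ) else 0) =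
    (if Function.Injective w then (1 : ℚ) else 0) *
      (1 - ∑ j : Fin (m + 1), if t = w j then (1 : ℚ) else 0) := by
  by_cases hw : Function.Injective w
  · rw [if_pos hw, one_mul]
    by_cases ht : ∃ j, t = w j
    · obtain ⟨j, hj⟩ := ht
      have h1 : ∑ i : Fin (m + 1), (if t = w i then (1 : ℚ) else 0) = 1 := by
        rw [Finset.sum_eq_single j]
        · rw [if_pos hj]
        · intro i _ hij
          rw [if_neg]
          intro h
          exact hij (hw (h.symm.trans hj))
        · intro h
          exact absurd (Finset.mem_univ j) h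
      rw [h1, sub_self, if_neg]
      intro h
      have h2 : (Fin.snoc (α := fun _ => D) w t : Fin (m + 2) → D) (Fin.last (m + 1)) =
          (Fin.snoc (α := fun _ => D) w t : Fin (m + 2) → D) (Fin.castSucc j) := by
        rw [Fin.snoc_last, Fin.snoc_castSucc]
        exact hj
      have h3 := h h2
      exact (Fin.castSucc_lt_last j).ne' h3
    · push Not at ht
      have h1 : ∑ i : Fin (m + 1), (if t = w i then (1 : ℚ) else 0) = 0 :=
        Finset.sum_eq_zero fun i _ => if_neg (ht i)
      rw [h1, sub_zero, if_pos]
      intro x y hxy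
      revert hxy
      refine Fin.lastCases ?_ (fun i => ?_) x
      · refine Fin.lastCases ?_ (fun j => ?_) y
        · intro _; rfl
        · intro h
          rw [Fin.snoc_last, Fin.snoc_castSucc] at h
          exact absurd h (ht j)
      · refine Fin.lastCases ?_ (fun j => ?_) y
        · intro h
          rw [Fin.snoc_last, Fin.snoc_castSucc] at h
          exact absurd h.symm (ht i)
        · intro h
          rw [Fin.snoc_castSucc, Fin.snoc_castSucc] at h
          rw [hw h]
  · rw [if_neg hw, zero_mul, if_neg]
    intro h
    apply hw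
    intro i j hij
    have h2 : (Fin.snoc (α := fun _ => D) w t : Fin (m + 2) → D) (Fin.castSucc i) =
        (Fin.snoc (α := fun _ => D) w t : Fin (m + 2) → D) (Fin.castSucc j) := by
      rw [Fin.snoc_castSucc, Fin.snoc_castSucc]
      exact hij
    exact Fin.castSucc_injective _ (h h2)

section

variable {P D : Type} [Fintype P] [DecidableEq P] [Fintype D] [DecidableEq D]
  (M : (P → D) → ℚ) (t0 : D)

open Classical in
/-- the sum over the assignments of different values, different from `t0`, to `m` blocks -/
noncomputable def II (m : ℕ) (p : P → Fin (m + 1)) : ℚ :=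
  ∑ y : Fin m → D, (if Function.Injective (Fin.cons (α := fun _ => D) t0 y : Fin (m + 1) → D)
    then (1 : ℚ) else 0) * M fun i => (Fin.cons (α := fun _ => D) t0 y : Fin (m + 1) → D) (p i)

theorem II_eq (hM : ∀ S : Finset P, S.Nonempty → ∀ φ : P → D,
    ∑ t, M (fun i => if i ∈ S then t else φ i) = 0) : ∀ (m : ℕ) (p : P → Fin (m + 1)),
    (∀ b, b ≠ 0 → ∃ i, p i = b) → II M t0 m p = (-1) ^ m * (m.factorial : ℚ) * M fun _ => t0 := by
  classical
  intro m
  induction m with
  | zero =>
    intro p _
    unfold II
    rw [Fintype.sum_eq_single (fun i => i.elim0 : Fin 0 → D)]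
    · rw [if_pos]
      · simp only [pow_zero, Nat.factorial_zero, Nat.cast_one, one_mul]
        congr 1
        funext i
        have : p i = 0 := Fin.ext (by have := (p i).2; omega)
        rw [this]
        rfl
      · intro x y _
        exact Fin.ext (by have := x.2; have := y.2; omega)
    · intro y hy
      exact absurd (Subsingleton.elim _ _) hy
  | succ m ih =>
    intro p hp
    have h1 : II M t0 (m + 1) p = ∑ y : Fin m → D, ∑ t : D,
        ((if Function.Injective (Fin.cons (α := fun _ => D) t0 y : Fin (m + 1) → D) then (1 : ℚ)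
          else 0) * (1 - ∑ j : Fin (m + 1), if t = (Fin.cons (α := fun _ => D) t0 y :
            Fin (m + 1) → D) j then (1 : ℚ) else 0)) *
        M fun i => (Fin.snoc (α := fun _ => D) (Fin.cons (α := fun _ => D) t0 y :
          Fin (m + 1) → D) t : Fin (m + 2) → D) (p i) := by
      unfold II
      rw [← (Fin.snocEquiv (fun _ : Fin (m + 1) => D)).sum_comp, Fintype.sum_prod_type,
        Finset.sum_comm]
      refine Finset.sum_congr rfl fun y _ => Finset.sum_congr rfl fun t _ => ?_
      have h2 : (Fin.snocEquiv (fun _ : Fin (m + 1) => D)) (t, y) =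
          (Fin.snoc (α := fun _ => D) y t : Fin (m + 1) → D) := rfl
      rw [h2, cons_snoc, inj_snoc]
    have h3 : ∀ y : Fin m → D, ∑ t : D,
        ((if Function.Injective (Fin.cons (α := fun _ => D) t0 y : Fin (m + 1) → D) then (1 : ℚ)
          else 0) * (1 - ∑ j : Fin (m + 1), if t = (Fin.cons (α := fun _ => D) t0 y :
            Fin (m + 1) → D) j then (1 : ℚ) else 0)) *
        (M fun i => (Fin.snoc (α := fun _ => D) (Fin.cons (α := fun _ => D) t0 y :
          Fin (m + 1) → D) t : Fin (m + 2) → D) (p i)) =
        - ∑ j : Fin (m + 1), (if Function.Injective (Fin.cons (α := fun _ => D) t0 y :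
            Fin (m + 1) → D) then (1 : ℚ) else 0) *
          M fun i => (Fin.cons (α := fun _ => D) t0 y : Fin (m + 1) → D) (mg j (p i)) := by
      intro y
      set w : Fin (m + 1) → D := Fin.cons (α := fun _ => D) t0 y with hw
      set c : ℚ := if Function.Injective w then (1 : ℚ) else 0 with hc
      have h4 : ∑ t : D, (M fun i => (Fin.snoc (α := fun _ => D) w t : Fin (m + 2) → D) (p i)) =
          0 := by
        obtain ⟨i0, hi0⟩ := hp (Fin.last (m + 1)) (by
          intro h
          exact absurd (congrArg Fin.val h) (by simp))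
        have h5 := hM (Finset.univ.filter fun i => p i = Fin.last (m + 1))
          ⟨i0, by simp [hi0]⟩ (fun i => (Fin.snoc (α := fun _ => D) w t0 : Fin (m + 2) → D) (p i))
        rw [← h5]
        refine Finset.sum_congr rfl fun t _ => ?_
        congr 1
        funext i
        by_cases h : p i = Fin.last (m + 1)
        · simp [h]
        · simp only [Finset.mem_filter, Finset.mem_univ, true_and, h, if_false]
          obtain ⟨j, hj⟩ := Fin.exists_castSucc_eq.2 h
          rw [← hj, Fin.snoc_castSucc, Fin.snoc_castSucc]
      have h6 : ∀ t : D, (c * (1 - ∑ j : Fin (m + 1), if t = w j then (1 : ℚ) else 0)) *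
          (M fun i => (Fin.snoc (α := fun _ => D) w t : Fin (m + 2) → D) (p i)) =
          c * (M fun i => (Fin.snoc (α := fun _ => D) w t : Fin (m + 2) → D) (p i)) -
          ∑ j : Fin (m + 1), (if t = w j then (1 : ℚ) else 0) * (c *
            (M fun i => (Fin.snoc (α := fun _ => D) w t : Fin (m + 2) → D) (p i))) := by
        intro t
        rw [← Finset.sum_mul]
        ring
      rw [Finset.sum_congr rfl fun t _ => h6 t, Finset.sum_sub_distrib, ← Finset.mul_sum, h4,
        mul_zero, zero_sub, Finset.sum_comm]
      congr 1
      refine Finset.sum_congr rfl fun j _ => ?_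
      rw [Finset.sum_eq_single (w j)]
      · rw [if_pos rfl, one_mul]
        congr 2
        funext i
        exact snoc_comp_mg w j (p i)
      · intro t _ ht
        rw [if_neg ht, zero_mul]
      · intro h
        exact absurd (Finset.mem_univ _) h
    rw [h1, Finset.sum_congr rfl fun y _ => h3 y, Finset.sum_neg_distrib, Finset.sum_comm]
    have h7 : ∀ j : Fin (m + 1), ∑ y : Fin m → D, (if Function.Injective
        (Fin.cons (α := fun _ => D) t0 y : Fin (m + 1) → D) then (1 : ℚ) else 0) *
        (M fun i => (Fin.cons (α := fun _ => D) t0 y : Fin (m + 1) → D) (mg j (p i))) =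
        (-1) ^ m * (m.factorial : ℚ) * M fun _ => t0 := by
      intro j
      refine ih (fun i => mg j (p i)) fun b hb => ?_
      obtain ⟨i, hi⟩ := hp (Fin.castSucc b) (by
        intro h
        apply hb
        exact Fin.castSucc_injective _ (h.trans Fin.castSucc_zero.symm))
      refine ⟨i, ?_⟩
      change mg j (p i) = b
      rw [hi]
      unfold mg
      rw [Fin.snoc_castSucc]
      rfl
    rw [Finset.sum_congr rfl fun j _ => h7 j, Finset.sum_const, Finset.card_univ, Fintype.card_fin,
      Nat.factorial_succ, nsmul_eq_mul, pow_succ]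
    push_cast
    ring

/-- A function on the maps from `P` to a set of at most `#P` elements is zero at the constant
maps, if its sum over the common value on any nonempty set of positions is zero. -/
theorem root_lemma (hP : Fintype.card D ≤ Fintype.card P)
    (hM : ∀ S : Finset P, S.Nonempty → ∀ φ : P → D,
    ∑ t, M (fun i => if i ∈ S then t else φ i) = 0) : M (fun _ => t0) = 0 := by
  classical
  let e := Fintype.equivFin P
  have h1 := II_eq M t0 hM (Fintype.card P) (fun i => (e i).succ) (by
    intro b hb
    obtain ⟨j, rfl⟩ := Fin.exists_succ_eq.2 hb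
    exact ⟨e.symm j, by simp⟩)
  have h2 : II M t0 (Fintype.card P) (fun i => (e i).succ) = 0 := by
    unfold II
    refine Finset.sum_eq_zero fun y _ => ?_
    rw [if_neg, zero_mul]
    intro h
    have h3 := Fintype.card_le_of_injective _ h
    rw [Fintype.card_fin] at h3
    omega
  rw [h2] at h1
  rcases mul_eq_zero.1 h1.symm with h3 | h3
  · rcases mul_eq_zero.1 h3 with h4 | h4
    · exact absurd h4 (pow_ne_zero _ (by norm_num))
    · exact absurd h4 (by exact_mod_cast Nat.factorial_ne_zero _)
  · exact h3

end

end Pool.Agent.J4.H27.BB
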