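import Mathlib

/-!
# Functions on powers of a finite group with vanishing partial averages
-/

set_option autoImplicit false

namespace Pool.Agent.J4.H27.BB

/-- The sum of the values of `Ψ` over the right translations by one element `g` in the positions
`S` is zero, for all nonempty sets `S` of positions. -/
def AvgZero {G : Type} [Group G] [Fintype G] {D : ℕ} (Ψ : (Fin D → G) → ℚ) : Prop :=
  ∀ S : Finset (Fin D), S.Nonempty → ∀ x : Fin D → G,
    ∑ g, Ψ (fun i => if i ∈ S then x i * g else x i) = 0

/-- `D` is a bound for the order of the group `G`, or `G` is commutative and every sequence of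
`D` elements of `G` has a nonempty subsequence with product `1` (so `D` is a bound for the Davenport
constant of `G`), or every function on `G ^ D` with vanishing partial averages is zero. -/
def DecompBound (G : Type) [Group G] [Fintype G] (D : ℕ) : Prop :=
  Fintype.card G ≤ D ∨
  ((∀ a b : G, a * b = b * a) ∧
    ∀ L : List G, L.length = D → ∃ M : List G, M.Sublist L ∧ M ≠ [] ∧ M.prod = 1) ∨
  ∀ Ψ : (Fin D → G) → ℚ, AvgZero Ψ → ∀ x, Ψ x = 0

section

variable {G : Type} [Group G] [Fintype G] {D : ℕ}

/-- Noether's bound -/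
theorem avg_card (hD : Fintype.card G ≤ D) (Ψ : (Fin D → G) → ℚ) (hΨ : AvgZero Ψ)
    (x : Fin D → G) : Ψ x = 0 := by
  classical
  -- a surjection of the positions to the group
  obtain ⟨c, hc⟩ : ∃ c : Fin D → G, Function.Surjective c := by
    have h1 : Nonempty (G ↪ Fin D) := by
      rw [Function.Embedding.nonempty_iff_card_le, Fintype.card_fin]
      exact hD
    obtain ⟨f⟩ := h1
    exact ⟨Function.invFun f, Function.invFun_surjective f.injective⟩
  -- inclusion-exclusion
  have h2 : ∀ h : G, ∑ S : Finset (Fin D), (-1 : ℚ) ^ S.card *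
      Ψ (fun i => if i ∈ S then x i * (c i)⁻¹ * h else x i) = 0 := by
    intro h
    obtain ⟨i0, hi0⟩ := hc h
    refine Finset.sum_involution (fun S _ => if i0 ∈ S then S.erase i0 else insert i0 S)
      ?_ ?_ (fun S _ => Finset.mem_univ _) ?_
    · intro S _
      by_cases hS : i0 ∈ S
      · simp only [hS, if_true]
        have h3 : (fun i => if i ∈ S.erase i0 then x i * (c i)⁻¹ * h else x i) =
            fun i => if i ∈ S then x i * (c i)⁻¹ * h else x i := by
          funext i
          by_cases hi : i = i0
          · subst hi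
            simp [hS, hi0]
          · simp [hi]
        rw [h3]
        have h4 : S.card = (S.erase i0).card + 1 := by
          rw [Finset.card_erase_of_mem hS]
          have : 0 < S.card := Finset.card_pos.2 ⟨i0, hS⟩
          omega
        rw [h4, pow_succ]
        ring
      · simp only [hS, if_false]
        have h3 : (fun i => if i ∈ insert i0 S then x i * (c i)⁻¹ * h else x i) =
            fun i => if i ∈ S then x i * (c i)⁻¹ * h else x i := by
          funext i
          by_cases hi : i = i0
          · subst hi
            simp [hS, hi0]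
          · simp [hi]
        rw [h3, Finset.card_insert_of_notMem hS, pow_succ]
        ring
    · intro S _ _ h3
      by_cases hS : i0 ∈ S
      · simp only [hS, if_true] at h3
        have := h3 ▸ Finset.notMem_erase i0 S
        exact this hS
      · simp only [hS, if_false] at h3
        exact hS (h3 ▸ Finset.mem_insert_self i0 S)
    · intro S _
      by_cases hS : i0 ∈ S
      · simp only [hS, if_true, Finset.notMem_erase, if_false]
        exact Finset.insert_erase hS
      · simp only [hS, if_false, Finset.mem_insert_self, if_true]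
        exact Finset.erase_insert hS
  have h3 : ∑ h : G, ∑ S : Finset (Fin D), (-1 : ℚ) ^ S.card *
      Ψ (fun i => if i ∈ S then x i * (c i)⁻¹ * h else x i) = 0 :=
    Finset.sum_eq_zero fun h _ => h2 h
  rw [Finset.sum_comm, Finset.sum_eq_single (∅ : Finset (Fin D))] at h3
  · simp only [Finset.card_empty, pow_zero, one_mul, Finset.notMem_empty, if_false,
      Finset.sum_const, Finset.card_univ, nsmul_eq_mul] at h3
    rcases mul_eq_zero.1 h3 with h4 | h4
    · have : (Fintype.card G : ℚ) ≠ 0 := by exact_mod_cast Fintype.card_ne_zero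
      exact absurd h4 this
    · exact h4
  · intro S _ hS
    rw [← Finset.mul_sum]
    have h4 := hΨ S (Finset.nonempty_iff_ne_empty.2 hS)
      (fun i => if i ∈ S then x i * (c i)⁻¹ else x i)
    have h5 : ∀ g : G, (fun i => if i ∈ S then (if i ∈ S then x i * (c i)⁻¹ else x i) * g else
        (if i ∈ S then x i * (c i)⁻¹ else x i)) =
        fun i => if i ∈ S then x i * (c i)⁻¹ * g else x i := by
      intro g
      funext i
      split_ifs <;> rfl
    simp only [h5] at h4
    rw [h4, mul_zero]
  · intro h
    exact absurd (Finset.mem_univ _) h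

end

section

variable {G : Type} [CommGroup G] [Fintype G] {D : ℕ}

/-- the dual group has the same Davenport constant -/
theorem dual_sublist (hD : ∀ L : List G, L.length = D →
    ∃ M : List G, M.Sublist L ∧ M ≠ [] ∧ M.prod = 1) (χ : Fin D → (G →* ℂˣ)) :
    ∃ S : Finset (Fin D), S.Nonempty ∧ ∏ i ∈ S, χ i = 1 := by
  classical
  obtain ⟨e⟩ := CommGroup.monoidHom_mulEquiv_of_hasEnoughRootsOfUnity G ℂ
  obtain ⟨M, hM, hM0, hM1⟩ := hD ((List.ofFn χ).map e) (by simp)
  rw [List.sublist_iff_exists_fin_orderEmbedding_get_eq] at hM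
  obtain ⟨f, hf⟩ := hM
  have hlen : ((List.ofFn χ).map e).length = D := by simp
  let f' : Fin M.length ↪ Fin D := f.toEmbedding.trans (finCongr hlen).toEmbedding
  refine ⟨Finset.univ.map f', ?_, ?_⟩
  · have h1 : 0 < M.length := List.length_pos_iff.2 hM0
    exact ⟨f' ⟨0, h1⟩, by simp⟩
  · apply e.injective
    rw [map_one, map_prod, Finset.prod_map]
    have h2 : ∀ i, e (χ (f' i)) = M.get i := by
      intro i
      rw [hf i]
      simp [f']
      rfl
    rw [Finset.prod_congr rfl fun i _ => h2 i, ← hM1]
    conv_rhs => rw [← List.ofFn_get M]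
    rw [List.prod_ofFn]

theorem avg_dav (hD : ∀ L : List G, L.length = D →
    ∃ M : List G, M.Sublist L ∧ M ≠ [] ∧ M.prod = 1) (Ψ : (Fin D → G) → ℚ) (hΨ : AvgZero Ψ)
    (x : Fin D → G) : Ψ x = 0 := by
  classical
  -- the sums against the characters are zero
  have h1 : ∀ χ : (Fin D → G) →* ℂˣ, ∑ x, (χ x : ℂ) * (Ψ x : ℂ) = 0 := by
    intro χ
    obtain ⟨S, hS, hS1⟩ := dual_sublist hD (fun i => χ.comp (MonoidHom.mulSingle (fun _ => G) i))
    have h2 : ∀ (x : Fin D → G) (g : G),
        (fun i => if i ∈ S then x i * g else x i) = x * (fun i => if i ∈ S then g else 1) := by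
      intro x g
      funext i
      rw [Pi.mul_apply]
      split_ifs <;> simp
    have h3 : ∀ g : G, χ (fun i => if i ∈ S then g else 1) = 1 := by
      intro g
      have h4 : (fun i => if i ∈ S then g else 1) = ∏ i ∈ S, Pi.mulSingle (M := fun _ => G) i g := by
        funext j
        rw [Finset.prod_apply]
        by_cases hj : j ∈ S
        · rw [if_pos hj, Finset.prod_eq_single j]
          · simp
          · intro i _ hij
            exact Pi.mulSingle_eq_of_ne (M := fun _ => G) (Ne.symm hij) g
          · intro h
            exact absurd hj h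
        · rw [if_neg hj]
          symm
          refine Finset.prod_eq_one fun i hi => ?_
          refine Pi.mulSingle_eq_of_ne (M := fun _ => G) ?_ g
          rintro rfl
          exact hj hi
      rw [h4, map_prod]
      have h5 := DFunLike.congr_fun hS1 g
      rw [MonoidHom.finsetProd_apply] at h5
      exact h5
    have h4 : ∀ g : G, ∑ x, (χ x : ℂ) * (Ψ x : ℂ) =
        ∑ x, (χ x : ℂ) * (Ψ (fun i => if i ∈ S then x i * g else x i) : ℂ) := by
      intro g
      rw [← Equiv.sum_comp (Equiv.mulRight (fun i => if i ∈ S then g else 1 : Fin D → G))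
        fun x => (χ x : ℂ) * (Ψ x : ℂ)]
      refine Finset.sum_congr rfl fun x _ => ?_
      rw [Equiv.coe_mulRight, map_mul, h3, mul_one, h2]
    have h5 : (Fintype.card G : ℂ) * ∑ x, (χ x : ℂ) * (Ψ x : ℂ) = 0 := by
      have h6 : ∑ g : G, ∑ x, (χ x : ℂ) * (Ψ x : ℂ) = (Fintype.card G : ℂ) *
          ∑ x, (χ x : ℂ) * (Ψ x : ℂ) := by
        rw [Finset.sum_const, Finset.card_univ, nsmul_eq_mul]
      rw [← h6, Finset.sum_congr rfl fun g _ => h4 g, Finset.sum_comm]
      refine Finset.sum_eq_zero fun x _ => ?_
      rw [← Finset.mul_sum]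
      have h7 := hΨ S hS x
      have h8 : ∑ g : G, (Ψ (fun i => if i ∈ S then x i * g else x i) : ℂ) = 0 := by
        rw [← Rat.cast_sum, h7, Rat.cast_zero]
      rw [h8, mul_zero]
    rcases mul_eq_zero.1 h5 with h6 | h6
    · have : (Fintype.card G : ℂ) ≠ 0 := by exact_mod_cast Fintype.card_ne_zero
      exact absurd h6 this
    · exact h6
  -- the characters form a basis
  let A := Additive (Fin D → G)
  let φ : (A → ℂ) →ₗ[ℂ] ℂ := ∑ x : Fin D → G, (Ψ x : ℂ) • LinearMap.proj (Additive.ofMul x : A)
  have h2 : φ = 0 := by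
    refine (AddChar.complexBasis A).ext fun ψ => ?_
    rw [AddChar.complexBasis_apply, LinearMap.zero_apply]
    let χ0 : (Fin D → G) →* ℂ :=
      { toFun := fun x => ψ (Additive.ofMul x)
        map_one' := by
          rw [ofMul_one]
          exact AddChar.map_zero_eq_one ψ
        map_mul' := fun x y => by
          rw [ofMul_mul]
          exact AddChar.map_add_eq_mul ψ _ _ }
    have h3 := h1 χ0.toHomUnits
    rw [← h3]
    simp only [φ, LinearMap.sum_apply, LinearMap.smul_apply, LinearMap.proj_apply, smul_eq_mul]
    refine Finset.sum_congr rfl fun x _ => ?_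
    rw [MonoidHom.coe_toHomUnits]
    exact mul_comm _ _
  have h3 := LinearMap.congr_fun h2 (Pi.single (Additive.ofMul x : A) 1)
  simp only [φ, LinearMap.sum_apply, LinearMap.smul_apply, LinearMap.proj_apply, smul_eq_mul,
    LinearMap.zero_apply] at h3
  rw [Finset.sum_eq_single x] at h3
  · rw [Pi.single_eq_same, mul_one] at h3
    exact_mod_cast h3
  · intro y _ hy
    rw [Pi.single_eq_of_ne, mul_zero]
    intro h
    exact hy (Additive.ofMul.injective h)
  · intro h
    exact absurd (Finset.mem_univ _) h

end

theorem avg_zero {G : Type} [Group G] [Fintype G] {D : ℕ} (hD : DecompBound G D)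
    (Ψ : (Fin D → G) → ℚ) (hΨ : AvgZero Ψ) (x : Fin D → G) : Ψ x = 0 := by
  rcases hD with h | ⟨hc, h⟩ | h
  · exact avg_card h Ψ hΨ x
  · let _ : CommGroup G := { ‹Group G› with mul_comm := hc }
    exact avg_dav h Ψ hΨ x
  · exact h Ψ hΨ x

end Pool.Agent.J4.H27.BB
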