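import Pool.Agent.J4.H27.BB.Main
import Pool.Agent.J4.H27.BB.Dav

/-!
# Exterior products of zero-cycles on varieties with an action of a finite group
-/

set_option autoImplicit false

open FF Pool.Agent.J4.H17.ZC

namespace Pool.Agent.J4.H27.BB

section

variable {k : Type} [Field k] [CharZero k]

/-- The subgroup of the group of the zero-cycles on `Y` which is generated by the zero-cycles
rationally equivalent to zero and by the images of the zero-cycles `b j` on `X` under all
morphisms. -/
noncomputable def imagesV (X Y : Var k) {J : Type} (b : J → X.Pt →₀ ℤ) : AddSubgroup (Y.Pt →₀ ℤ) :=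
  AddSubgroup.closure ({z | z ∈ RatEq Y} ∪
    {z | ∃ (j : J) (f : X.Pt → Y.Pt), Reg (X := X) (Y := Y) f ∧ z = Finsupp.mapDomain f (b j)})

omit [CharZero k] in
theorem dg_mapDomain {A B : Type} (f : A → B) (d : A →₀ ℤ) : dg (Finsupp.mapDomain f d) = dg d := by
  induction d using Finsupp.induction_linear with
  | zero => simp
  | add u v hu hv => rw [Finsupp.mapDomain_add, map_add, hu, hv, map_add]
  | single x c => rw [Finsupp.mapDomain_single, dg_single, dg_single]

theorem dg_ratEq [IsAlgClosed k] {X : Var k} {z : X.Pt →₀ ℤ} (hz : z ∈ RatEq X) : dg z = 0 := by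
  have h : RatEq X ≤ (dg (A := X.Pt)).ker := by
    unfold RatEq
    rw [AddSubgroup.closure_le]
    rintro z ⟨L, _, _, _, x, f, -, -, rfl⟩
    change dg (Finsupp.mapDomain x (divisor k f)) = 0
    rw [dg_mapDomain, dg_divisor]
  exact h hz

theorem dg_imagesV [IsAlgClosed k] {X Y : Var k} {J : Type} {b : J → X.Pt →₀ ℤ}
    (hb : ∀ j, dg (b j) = 0) {z : Y.Pt →₀ ℤ} (hz : z ∈ imagesV X Y b) : dg z = 0 := by
  have h : imagesV X Y b ≤ (dg (A := Y.Pt)).ker := by
    unfold imagesV
    rw [AddSubgroup.closure_le]
    rintro z (hz | ⟨j, f, -, rfl⟩)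
    · exact dg_ratEq hz
    · change dg (Finsupp.mapDomain f (b j)) = 0
      rw [dg_mapDomain, hb]
  exact h hz

/-- Reduction to exterior products of the zero-cycles `b j` on the power of one variety. -/
theorem reduceV [IsAlgClosed k] {X : Var k} {J : Type} (b : J → X.Pt →₀ ℤ)
    (hb : ∀ j, dg (b j) = 0) {n : ℕ}
    (H : ∀ l : ((Fin n → X.Pt) →₀ ℤ) →+ ℚ, (∀ r ∈ RatEq (X.pow (Fin n)), l r = 0) →
      ∀ j : Fin n → J, l (ext fun i => b (j i)) = 0)
    (Y : Fin n → Var k) (hY : ∀ i, (Y i).Const) (a : ∀ i, (Y i).Pt →₀ ℤ)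
    (ha : ∀ i, ∃ N : ℕ, 0 < N ∧ N • a i ∈ imagesV X (Y i) b) :
    (2 ≤ n → ∀ i, Finsupp.mapDomain (fun x : ∀ i, (Y i).Pt => x i) (prodCycle a) = 0) ∧
    ∃ N : ℕ, 0 < N ∧ N • prodCycle a ∈ RatEq (varPi Y) := by
  classical
  refine ⟨?_, torsion_of_hom _ _ fun l hl => ?_⟩
  · intro hn i
    have : Nontrivial (Fin n) := Fin.nontrivial_iff_two_le.2 hn
    obtain ⟨j, hj⟩ := exists_ne i
    refine prodCycle_proj a hj ?_
    obtain ⟨N, hN, h1⟩ := ha j
    have h2 := dg_imagesV hb h1
    rw [map_nsmul] at h2
    rcases smul_eq_zero.1 h2 with h3 | h3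
    · omega
    · exact h3
  let Λ : MultilinearMap ℤ (fun i => (Y i).Pt →₀ ℤ) ℚ :=
    l.toIntLinearMap.compMultilinearMap (prodCycleM fun i => (Y i).Pt)
  choose N hN hNa using ha
  have h1 : Λ (fun i => (N i : ℤ) • a i) = (∏ i, (N i : ℤ)) • Λ a :=
    MultilinearMap.map_smul_univ Λ (fun i => (N i : ℤ)) a
  have h2 : Λ (fun i => (N i : ℤ) • a i) = 0 := by
    refine multi_closure Λ (fun i => {z | z ∈ RatEq (Y i)} ∪
      {z | ∃ (j : J) (f : X.Pt → (Y i).Pt), Reg (X := X) (Y := Y i) f ∧
        z = Finsupp.mapDomain f (b j)}) Finset.univ _ ?_ ?_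
    · intro i _
      have h3 := hNa i
      rw [← natCast_zsmul] at h3
      exact h3
    · intro d _ hd
      change l (prodCycle d) = 0
      by_cases hp : ∃ i, d i ∈ RatEq (Y i)
      · obtain ⟨i, hi⟩ := hp
        exact hl _ (prodCycle_mem hY i d hi)
      · push Not at hp
        have h3 : ∀ i, ∃ (j : J) (f : X.Pt → (Y i).Pt), Reg (X := X) (Y := Y i) f ∧
            d i = Finsupp.mapDomain f (b j) := by
          intro i
          rcases hd i (Finset.mem_univ i) with h4 | h4
          · exact absurd h4 (hp i)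
          · exact h4
        choose j f hf hdf using h3
        have h4 : prodCycle d = Finsupp.mapDomain (fun (x : Fin n → X.Pt) i => f i (x i))
            (ext fun i => b (j i)) := by
          rw [← prodCycle_push]
          congr 1
          funext i
          exact hdf i
        rw [h4]
        -- the functional on the power of the variety
        let l' : ((Fin n → X.Pt) →₀ ℤ) →+ ℚ :=
          l.comp (Finsupp.mapDomain.addMonoidHom fun (x : Fin n → X.Pt) i => f i (x i))
        have hl' : ∀ r ∈ RatEq (X.pow (Fin n)), l' r = 0 := by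
          intro r hr
          refine hl _ (Reg.push (X := X.pow (Fin n)) (Y := varPi Y)
            (F := fun x i => f i (x i)) ?_ hr)
          intro L _ _ x hx i
          exact hf i L _ (hx i)
        exact H l' hl' j
  rw [h1] at h2
  rcases smul_eq_zero.1 h2 with h3 | h3
  · rw [Finset.prod_eq_zero_iff] at h3
    obtain ⟨i, _, hi⟩ := h3
    have := hN i
    omega
  · exact h3

end

section

variable {k : Type} [Field k] [CharZero k] {X : Var k} {G : Type} [Group G] [Fintype G]
  [MulAction G X.Pt]

/-- the elements of the normal subgroups of `G` which fix a point `o` such that the orbits (with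
multiplicities) of `o` and `q` differ by a torsion element of the Chow group of zero-cycles -/
def Fixers (X : Var k) (G : Type) [Group G] [Fintype G] [MulAction G X.Pt] (q : X.Pt) : Set G :=
  {ν | ∃ (N : Subgroup G) (o : X.Pt) (M : ℕ), N.Normal ∧ ν ∈ N ∧ (∀ m ∈ N, m • o = o) ∧ 0 < M ∧
    M • ∑ g : G, (Finsupp.single (g • q) 1 - Finsupp.single (g • o) 1) ∈ RatEq X}

variable {n : ℕ}

omit [CharZero k] [Fintype G] in
/-- the exterior product of the images of zero-cycles on `G` under the orbit maps of points -/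
theorem orbit_ext (p : Fin n → X.Pt) (u : Fin n → G →₀ ℤ) :
    ext (fun i => Finsupp.mapDomain (fun g : G => g • p i) (u i)) =
      Finsupp.mapDomain (fun (x : Fin n → G) i => x i • p i) (ext u) :=
  prodCycle_push (fun i (g : G) => g • p i) u

/-- the functional on the families of zero-cycles on `G` given by the orbit maps of points -/
noncomputable def orb (l : ((Fin n → X.Pt) →₀ ℤ) →+ ℚ) (p : Fin n → X.Pt) :
    MultilinearMap ℤ (fun _ : Fin n => G →₀ ℤ) ℚ :=
  (l.comp (Finsupp.mapDomain.addMonoidHom
    fun (x : Fin n → G) i => x i • p i)).toIntLinearMap.compMultilinearMap (extM G n)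

omit [CharZero k] [Fintype G] in
theorem orb_apply (l : ((Fin n → X.Pt) →₀ ℤ) →+ ℚ) (p : Fin n → X.Pt) (u : Fin n → G →₀ ℤ) :
    orb l p u = l (ext fun i => Finsupp.mapDomain (fun g : G => g • p i) (u i)) := by
  rw [orbit_ext]
  rfl

omit [CharZero k] [Fintype G] in
theorem orb_single (l : ((Fin n → X.Pt) →₀ ℤ) →+ ℚ) (p : Fin n → X.Pt) (w : Fin n → G) :
    orb l p (fun i => Finsupp.single (w i) 1) = l (Finsupp.single (fun i => w i • p i) 1) := by
  rw [orb_apply]
  congr 1
  rw [← ext_single]
  congr 1
  funext i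
  rw [Finsupp.mapDomain_single]

/-- The points of an orbit in the positions `S` can be replaced by those of an equivalent one. -/
theorem orb_rel (hX : X.Const) (hG : ∀ g : G, Reg (X := X) (Y := X) (fun x => g • x))
    {l : ((Fin n → X.Pt) →₀ ℤ) →+ ℚ} (hl : ∀ r ∈ RatEq (X.pow (Fin n)), l r = 0)
    {q o : X.Pt} {M : ℕ} (hM : 0 < M)
    (hqo : M • ∑ g : G, (Finsupp.single (g • q) 1 - Finsupp.single (g • o) 1) ∈ RatEq X)
    (S : Finset (Fin n)) (z : Fin n → G) (p : Fin n → X.Pt) (u : Fin n → G →₀ ℤ) :
    ∑ g : G, orb l (fun i => if i ∈ S then (z i * g) • q else p i) u =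
      ∑ g : G, orb l (fun i => if i ∈ S then (z i * g) • o else p i) u := by
  classical
  have h : (∑ g : G, orb (G := G) l (fun i => if i ∈ S then (z i * g) • q else p i)) =
      ∑ g : G, orb (G := G) l (fun i => if i ∈ S then (z i * g) • o else p i) := by
    refine Module.Basis.ext_multilinear (fun _ => Finsupp.basisSingleOne) ?_
    intro w
    rw [MultilinearMap.sum_apply, MultilinearMap.sum_apply]
    simp only [Finsupp.coe_basisSingleOne]
    let F : X.Pt → Fin n → X.Pt := fun P i => if i ∈ S then (w i * z i) • P else w i • p i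
    have hF : Reg (X := X) (Y := X.pow (Fin n)) F := by
      intro L _ _ x hx i
      by_cases hi : i ∈ S
      · have h2 : (fun P => F (x P) i) = fun P => (w i * z i) • x P := by
          funext P
          simp only [F, hi, if_true]
        rw [h2]
        exact hG _ L x hx
      · have h2 : (fun P => F (x P) i) = fun _ : Place k L => w i • p i := by
          funext P
          simp only [F, hi, if_false]
        rw [h2]
        exact hX L _
    have h1 := hl _ (hF.push hqo)
    have h2 : Finsupp.mapDomain F (M • ∑ g : G, (Finsupp.single (g • q) (1 : ℤ) -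
        Finsupp.single (g • o) 1)) =
        M • ∑ g : G, (Finsupp.single (F (g • q)) 1 - Finsupp.single (F (g • o)) 1) := by
      have h4 := map_nsmul (Finsupp.mapDomain.addMonoidHom F) M
        (∑ g : G, (Finsupp.single (g • q) (1 : ℤ) - Finsupp.single (g • o) 1))
      refine h4.trans ?_
      rw [map_sum]
      congr 1
      refine Finset.sum_congr rfl fun g _ => ?_
      rw [map_sub]
      change Finsupp.mapDomain F (Finsupp.single (g • q) 1) -
        Finsupp.mapDomain F (Finsupp.single (g • o) 1) = _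
      rw [Finsupp.mapDomain_single, Finsupp.mapDomain_single]
    rw [h2, map_nsmul, map_sum] at h1
    rcases smul_eq_zero.1 h1 with h3 | h3
    · omega
    · rw [← sub_eq_zero, ← Finset.sum_sub_distrib, ← h3]
      refine Finset.sum_congr rfl fun g _ => ?_
      rw [orb_single, orb_single, map_sub]
      have h5 : ∀ c : X.Pt, (fun i => w i • (if i ∈ S then (z i * g) • c else p i)) =
          F (g • c) := by
        intro c
        funext i
        simp only [F]
        split_ifs
        · rw [smul_smul, smul_smul, mul_assoc]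
        · rfl
      rw [h5, h5]
  have h1 := congrArg (fun f : MultilinearMap ℤ (fun _ : Fin n => G →₀ ℤ) ℚ => f u) h
  simpa only [MultilinearMap.sum_apply] using h1

omit [Fintype G] in
/-- the generators of the augmentation ideal of the group ring -/
theorem aug_closure (W : Set G) (hW : Subgroup.closure W = ⊤) (h : G) :
    (Finsupp.single h (1 : ℤ) - Finsupp.single 1 1 : G →₀ ℤ) ∈ AddSubgroup.closure
      {w : G →₀ ℤ | ∃ y ν : G, ν ∈ W ∧ w = Finsupp.single (y * ν) 1 - Finsupp.single y 1} := by
  have h1 : ∀ x ∈ Subgroup.closure W, ∀ y : G,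
      (Finsupp.single (y * x) (1 : ℤ) - Finsupp.single y 1 : G →₀ ℤ) ∈ AddSubgroup.closure
      {w : G →₀ ℤ | ∃ y ν : G, ν ∈ W ∧ w = Finsupp.single (y * ν) 1 - Finsupp.single y 1} := by
    intro x hx
    induction hx using Subgroup.closure_induction with
    | mem x hx => exact fun y => AddSubgroup.subset_closure ⟨y, x, hx, rfl⟩
    | one =>
      intro y
      rw [mul_one, sub_self]
      exact AddSubgroup.zero_mem _
    | mul a b _ _ ha hb =>
      intro y
      have h2 := AddSubgroup.add_mem _ (hb (y * a)) (ha y)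
      rw [sub_add_sub_cancel, mul_assoc] at h2
      exact h2
    | inv a _ ha =>
      intro y
      have h2 := AddSubgroup.neg_mem _ (ha (y * a⁻¹))
      rw [neg_sub, inv_mul_cancel_right] at h2
      exact h2
  have h2 := h1 h (by rw [hW]; exact Subgroup.mem_top h) 1
  rwa [one_mul] at h2

theorem orb_zero (hX : X.Const) (hG : ∀ g : G, Reg (X := X) (Y := X) (fun x => g • x)) {D : ℕ}
    (hD : DecompBound G D) {s : ℕ} (q : Fin s → X.Pt)
    (hq : ∀ j, Subgroup.closure (Fixers X G (q j)) = ⊤) (hn : s * (D - 1) < n)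
    {l : ((Fin n → X.Pt) →₀ ℤ) →+ ℚ} (hl : ∀ r ∈ RatEq (X.pow (Fin n)), l r = 0)
    (j : Fin n → Fin s) (h : Fin n → G) :
    orb l (fun i => q (j i)) (fun i => Finsupp.single (h i) 1 - Finsupp.single 1 1) = 0 := by
  classical
  have hD0 : 0 < D := by
    rcases Nat.eq_zero_or_pos D with h0 | h0
    · subst h0
      exfalso
      have h1 := avg_zero hD (fun _ => 1) (fun S hS => by
        obtain ⟨x, _⟩ := hS
        exact x.elim0) (fun x => x.elim0)
      exact one_ne_zero h1
    · exact h0
  refine multi_closure _ (fun i => {w : G →₀ ℤ | ∃ y ν : G, ν ∈ Fixers X G (q (j i)) ∧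
    w = Finsupp.single (y * ν) 1 - Finsupp.single y 1}) Finset.univ _
    (fun i _ => aug_closure _ (hq (j i)) (h i)) ?_
  intro u _ hu
  choose y ν hν huy using fun i => hu i (Finset.mem_univ i)
  obtain ⟨j0, T, hT, hjT⟩ := pigeon (fun _ : Fin s => D - 1) (by
    rw [Finset.sum_const, Finset.card_univ, Fintype.card_fin, smul_eq_mul]
    exact hn) j
  have hT' : T.card = D := by omega
  let e : {i // i ∈ T} ≃ Fin D := Finset.equivFinOfCardEq hT'
  let Ψ : (Fin D → G) → ℚ := fun x =>
    orb l (fun i => if hi : i ∈ T then x (e ⟨i, hi⟩) • q j0 else q (j i)) u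
  have hΨ : AvgZero Ψ := by
    intro S' hS' x
    let S : Finset (Fin n) := Finset.univ.filter fun i => ∃ hi : i ∈ T, e ⟨i, hi⟩ ∈ S'
    let z : Fin n → G := fun i => if hi : i ∈ T then x (e ⟨i, hi⟩) else 1
    let p : Fin n → X.Pt := fun i => if hi : i ∈ T then x (e ⟨i, hi⟩) • q j0 else q (j i)
    have h1 : ∀ g : G, Ψ (fun t => if t ∈ S' then x t * g else x t) =
        orb l (fun i => if i ∈ S then (z i * g) • q j0 else p i) u := by
      intro g
      change orb l _ u = orb l _ u
      congr 2
      funext i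
      by_cases hi : i ∈ T
      · by_cases hi' : e ⟨i, hi⟩ ∈ S'
        · have h2 : i ∈ S := by
            simp only [S, Finset.mem_filter, Finset.mem_univ, true_and]
            exact ⟨hi, hi'⟩
          simp only [hi, dite_true, hi', if_true, h2, z]
        · have h2 : i ∉ S := by
            simp only [S, Finset.mem_filter, Finset.mem_univ, true_and, not_exists]
            exact fun _ => hi'
          simp only [hi, dite_true, hi', if_false, h2, p]
      · have h2 : i ∉ S := by
          simp only [S, Finset.mem_filter, Finset.mem_univ, true_and, not_exists]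
          exact fun h3 => absurd h3 hi
        simp only [hi, dite_false, h2, if_false, p]
    rw [Finset.sum_congr rfl fun g _ => h1 g]
    obtain ⟨t0, ht0⟩ := hS'
    obtain ⟨⟨i0, hi0⟩, rfl⟩ := e.surjective t0
    have hi0S : i0 ∈ S := by
      simp only [S, Finset.mem_filter, Finset.mem_univ, true_and]
      exact ⟨hi0, ht0⟩
    obtain ⟨N, o, M, hN, hνN, ho, hM, hqo⟩ := hν i0
    rw [hjT i0 hi0] at hqo
    rw [orb_rel hX hG hl hM hqo S z p u]
    refine Finset.sum_eq_zero fun g _ => ?_
    rw [orb_apply, ← extM_apply, MultilinearMap.map_coord_zero _ i0, map_zero]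
    rw [huy i0]
    simp only [hi0S, if_true]
    have h2 : ∀ v w : G →₀ ℤ, Finsupp.mapDomain (fun h : G => h • (z i0 * g) • o) (v - w) =
        Finsupp.mapDomain (fun h : G => h • (z i0 * g) • o) v -
          Finsupp.mapDomain (fun h : G => h • (z i0 * g) • o) w := fun v w =>
      map_sub (Finsupp.mapDomain.addMonoidHom (fun h : G => h • (z i0 * g) • o)) v w
    rw [h2, Finsupp.mapDomain_single, Finsupp.mapDomain_single]
    have h3 : (y i0 * ν i0) • (z i0 * g) • o = y i0 • (z i0 * g) • o := by
      have h4 : (z i0 * g)⁻¹ * ν i0 * (z i0 * g) ∈ N := by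
        have := hN.conj_mem _ hνN (z i0 * g)⁻¹
        rwa [inv_inv] at this
      have h5 := ho _ h4
      have h6 : ν i0 • (z i0 * g) • o = (z i0 * g) • o := by
        calc ν i0 • (z i0 * g) • o = (z i0 * g) • (((z i0 * g)⁻¹ * ν i0 * (z i0 * g)) • o) := by
              rw [smul_smul, smul_smul]
              congr 1
              group
          _ = (z i0 * g) • o := by rw [h5]
      rw [mul_smul, h6]
    rw [h3, sub_self]
  have h1 := avg_zero hD Ψ hΨ (fun _ => 1)
  have h2 : Ψ (fun _ => 1) = orb l (fun i => q (j i)) u := by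
    change orb l _ u = orb l _ u
    congr 2
    funext i
    by_cases hi : i ∈ T
    · simp only [hi, dite_true, one_smul, hjT i hi]
    · simp only [hi, dite_false]
  rw [← h2]
  exact h1

/-- Exterior products of zero-cycles which come from the differences `h • q j - q j` of points in
the same orbit. -/
theorem cov_thm [IsAlgClosed k] (hX : X.Const)
    (hG : ∀ g : G, Reg (X := X) (Y := X) (fun x => g • x)) {D : ℕ} (hD : DecompBound G D) {s : ℕ}
    (q : Fin s → X.Pt) (hq : ∀ j, Subgroup.closure (Fixers X G (q j)) = ⊤)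
    (hn : s * (D - 1) < n) (Y : Fin n → Var k) (hY : ∀ i, (Y i).Const)
    (a : ∀ i, (Y i).Pt →₀ ℤ)
    (ha : ∀ i, ∃ N : ℕ, 0 < N ∧ N • a i ∈ imagesV X (Y i) fun t : Fin s × G =>
      Finsupp.single (t.2 • q t.1) 1 - Finsupp.single (q t.1) 1) :
    (2 ≤ n → ∀ i, Finsupp.mapDomain (fun x : ∀ i, (Y i).Pt => x i) (prodCycle a) = 0) ∧
    ∃ N : ℕ, 0 < N ∧ N • prodCycle a ∈ RatEq (varPi Y) := by
  classical
  refine reduceV _ (fun t => ?_) (fun l hl j => ?_) Y hY a ha
  · rw [map_sub, dg_single, dg_single, sub_self]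
  · have h1 := orb_zero hX hG hD q hq hn hl (fun i => (j i).1) (fun i => (j i).2)
    rw [orb_apply] at h1
    rw [← h1]
    congr 2
    funext i
    have h2 : ∀ v w : G →₀ ℤ, Finsupp.mapDomain (fun h : G => h • q (j i).1) (v - w) =
        Finsupp.mapDomain (fun h : G => h • q (j i).1) v -
          Finsupp.mapDomain (fun h : G => h • q (j i).1) w := fun v w =>
      map_sub (Finsupp.mapDomain.addMonoidHom (fun h : G => h • q (j i).1)) v w
    rw [h2, Finsupp.mapDomain_single, Finsupp.mapDomain_single, one_smul]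

end

end Pool.Agent.J4.H27.BB
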