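import Pool.Agent.J4.H17.ZC.Main

/-!
# Products of families of curves, exterior products of zero-cycles on them
-/

set_option autoImplicit false

open FF Pool.Agent.J4.H17.ZC

namespace Pool.Agent.J4.H27.BB

/-- The product of the family `X i`. The morphisms to it are the maps all of whose components are
morphisms. -/
abbrev varPi {k : Type} [Field k] {ι : Type} (X : ι → Var k) : Var k where
  Pt := ∀ i, (X i).Pt
  IsMor L _ _ x := ∀ i, (X i).IsMor L (fun P => x P i)

/-- The exterior product `a 1 × ... × a n` of the zero-cycles `a i` on `A i`, a zero-cycle on the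
product of the `A i`. -/
noncomputable def prodCycle {n : ℕ} {A : Fin n → Type} (a : ∀ i, A i →₀ ℤ) : (∀ i, A i) →₀ ℤ :=
  Finsupp.onFinset (Fintype.piFinset fun i => (a i).support) (fun x => ∏ i, a i (x i)) (by
    intro x hx
    rw [Fintype.mem_piFinset]
    intro i
    rw [Finsupp.mem_support_iff]
    intro h
    exact hx (Finset.prod_eq_zero (Finset.mem_univ i) h))

section

variable {n : ℕ} {A : Fin n → Type}

theorem prodCycle_apply (a : ∀ i, A i →₀ ℤ) (x : ∀ i, A i) :
    prodCycle a x = ∏ i, a i (x i) := rfl

theorem prodCycle_single (x : ∀ i, A i) :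
    prodCycle (fun i => Finsupp.single (x i) (1 : ℤ)) = Finsupp.single x 1 := by
  classical
  ext y
  rw [prodCycle_apply, Finsupp.single_apply]
  split_ifs with h
  · subst h; simp
  · obtain ⟨i, hi⟩ := Function.ne_iff.1 h
    refine Finset.prod_eq_zero (Finset.mem_univ i) ?_
    rw [Finsupp.single_eq_of_ne (Ne.symm hi)]

/-- the exterior product as a multilinear map -/
noncomputable def prodCycleM (A : Fin n → Type) :
    MultilinearMap ℤ (fun i : Fin n => A i →₀ ℤ) ((∀ i, A i) →₀ ℤ) where
  toFun := prodCycle
  map_update_add' := by
    intro inst m i x y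
    ext z
    rw [Finsupp.add_apply, prodCycle_apply, prodCycle_apply, prodCycle_apply]
    have h : ∀ w : A i →₀ ℤ, ∏ j, (Function.update m i w) j (z j) =
        w (z i) * ∏ j ∈ Finset.univ.erase i, m j (z j) := by
      intro w
      rw [← Finset.mul_prod_erase _ _ (Finset.mem_univ i), Function.update_self]
      congr 1
      refine Finset.prod_congr ?_ fun j hj => ?_
      · ext j; simp
      rw [Function.update_of_ne (Finset.ne_of_mem_erase hj)]
    rw [h, h, h, Finsupp.add_apply, add_mul]
  map_update_smul' := by
    intro inst m i c x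
    ext z
    rw [Finsupp.smul_apply, prodCycle_apply, prodCycle_apply]
    have h : ∀ w : A i →₀ ℤ, ∏ j, (Function.update m i w) j (z j) =
        w (z i) * ∏ j ∈ Finset.univ.erase i, m j (z j) := by
      intro w
      rw [← Finset.mul_prod_erase _ _ (Finset.mem_univ i), Function.update_self]
      congr 1
      refine Finset.prod_congr ?_ fun j hj => ?_
      · ext j; simp
      rw [Function.update_of_ne (Finset.ne_of_mem_erase hj)]
    rw [h, h, Finsupp.smul_apply, smul_eq_mul, smul_eq_mul, mul_assoc]

theorem prodCycleM_apply (a : ∀ i, A i →₀ ℤ) : prodCycleM A a = prodCycle a := rfl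

end

/-- A multilinear map is zero at a family of elements of the subgroups generated by the sets `S i`
if it is zero at all families of elements of the sets `S i`. -/
theorem multi_closure {ι : Type} [Fintype ι] [DecidableEq ι] {E : ι → Type}
    [∀ i, AddCommGroup (E i)] {Q : Type} [AddCommGroup Q] (Λ : MultilinearMap ℤ E Q)
    (S : ∀ i, Set (E i)) : ∀ (s : Finset ι) (d : ∀ i, E i),
    (∀ i ∈ s, d i ∈ AddSubgroup.closure (S i)) →
    (∀ d' : ∀ i, E i, (∀ i, i ∉ s → d' i = d i) → (∀ i ∈ s, d' i ∈ S i) → Λ d' = 0) →
    Λ d = 0 := by
  intro s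
  induction s using Finset.induction_on with
  | empty =>
    intro d _ h
    exact h d (fun _ _ => rfl) (by simp)
  | insert j s hj ih =>
    intro d hd h
    have h1 : ∀ w ∈ AddSubgroup.closure (S j), Λ (Function.update d j w) = 0 := by
      intro w hw
      induction hw using AddSubgroup.closure_induction with
      | zero => exact MultilinearMap.map_update_zero Λ d j
      | add u v _ _ hu hv => rw [MultilinearMap.map_update_add, hu, hv, add_zero]
      | neg u _ hu =>
        have h2 := MultilinearMap.map_update_smul Λ d j (-1 : ℤ) u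
        rw [neg_smul, one_smul, neg_smul, one_smul, hu, neg_zero] at h2
        exact h2
      | mem w hw =>
        refine ih _ ?_ ?_
        · intro i hi
          have hij : i ≠ j := by
            rintro rfl
            exact hj hi
          rw [Function.update_of_ne hij]
          exact hd i (Finset.mem_insert_of_mem hi)
        · intro d' h3 h4
          refine h d' ?_ ?_
          · intro i hi
            rw [Finset.mem_insert, not_or] at hi
            rw [h3 i hi.2, Function.update_of_ne hi.1]
          · intro i hi
            rcases Finset.mem_insert.1 hi with rfl | hi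
            · rw [h3 i hj, Function.update_self]
              exact hw
            · exact h4 i hi
    have h2 := h1 (d j) (hd j (Finset.mem_insert_self _ _))
    rwa [Function.update_eq_self] at h2

/-- the points generate the group of zero-cycles -/
theorem closure_single {A : Type} (d : A →₀ ℤ) :
    d ∈ AddSubgroup.closure {w : A →₀ ℤ | ∃ x, w = Finsupp.single x 1} := by
  induction d using Finsupp.induction_linear with
  | zero => exact AddSubgroup.zero_mem _
  | add u v hu hv => exact AddSubgroup.add_mem _ hu hv
  | single x c =>
    have h : Finsupp.single x c = c • Finsupp.single x (1 : ℤ) := by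
      rw [Finsupp.smul_single, smul_eq_mul, mul_one]
    rw [h]
    have h1 : Finsupp.single x (1 : ℤ) ∈ {w : A →₀ ℤ | ∃ x, w = Finsupp.single x 1} := ⟨x, rfl⟩
    exact AddSubgroup.zsmul_mem _ (AddSubgroup.subset_closure h1) c

section

variable {k : Type} [Field k] [CharZero k]

/-- the exterior product is rationally equivalent to zero if one of the factors is -/
theorem prodCycle_mem {n : ℕ} {X : Fin n → Var k} (hX : ∀ i, (X i).Const) (i0 : Fin n)
    (a : ∀ i, (X i).Pt →₀ ℤ) (ha : a i0 ∈ RatEq (X i0)) : prodCycle a ∈ RatEq (varPi X) := by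
  classical
  let q : ((∀ i, (X i).Pt) →₀ ℤ) →+ ((∀ i, (X i).Pt) →₀ ℤ) ⧸ RatEq (varPi X) :=
    QuotientAddGroup.mk' _
  let Λ : MultilinearMap ℤ (fun i => (X i).Pt →₀ ℤ) (((∀ i, (X i).Pt) →₀ ℤ) ⧸ RatEq (varPi X)) :=
    q.toIntLinearMap.compMultilinearMap (prodCycleM fun i => (X i).Pt)
  have h := multi_closure Λ (fun i => {w | ∃ x, w = Finsupp.single x 1})
    (Finset.univ.erase i0) a (fun i _ => closure_single _) ?_
  · exact (QuotientAddGroup.eq_zero_iff _).1 h
  · intro d hd hd'
    have hd0 : d i0 = a i0 := hd i0 (by simp)
    by_cases hne : Nonempty (X i0).Pt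
    · obtain ⟨y0⟩ := hne
      have h1 : ∀ i, ∃ y : (X i).Pt, i ≠ i0 → d i = Finsupp.single y 1 := by
        intro i
        by_cases hi : i = i0
        · subst hi
          exact ⟨y0, fun h => absurd rfl h⟩
        · obtain ⟨y, hy⟩ := hd' i (by simp [hi])
          exact ⟨y, fun _ => hy⟩
      choose y hy using h1
      have h4 : ∀ w : (X i0).Pt →₀ ℤ,
          prodCycle (Function.update (fun j => Finsupp.single (y j) (1 : ℤ)) i0 w) =
          Finsupp.mapDomain (fun u => Function.update y i0 u) w := by
        intro w
        induction w using Finsupp.induction_linear with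
        | zero => rw [← prodCycleM_apply, MultilinearMap.map_update_zero, Finsupp.mapDomain_zero]
        | add u v hu hv =>
          rw [← prodCycleM_apply, MultilinearMap.map_update_add, prodCycleM_apply,
            prodCycleM_apply, hu, hv, Finsupp.mapDomain_add]
        | single u c =>
          have h5 : Finsupp.single u c = c • Finsupp.single u (1 : ℤ) := by
            rw [Finsupp.smul_single, smul_eq_mul, mul_one]
          rw [h5, ← prodCycleM_apply, MultilinearMap.map_update_smul, prodCycleM_apply,
            Finsupp.mapDomain_smul, Finsupp.mapDomain_single]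
          congr 1
          rw [← prodCycle_single]
          congr 1
          funext j
          by_cases hj : j = i0
          · subst hj; rw [Function.update_self, Function.update_self]
          · rw [Function.update_of_ne hj, Function.update_of_ne hj]
      have h3 : d = Function.update (fun j => Finsupp.single (y j) (1 : ℤ)) i0 (a i0) := by
        funext j
        by_cases hj : j = i0
        · subst hj; rw [Function.update_self, hd0]
        · rw [Function.update_of_ne hj, hy j hj]
      refine (QuotientAddGroup.eq_zero_iff _).2 ?_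
      change prodCycle d ∈ _
      rw [h3, h4]
      refine Reg.push (X := X i0) (Y := varPi X) ?_ ha
      intro L _ _ x hx j
      by_cases hj : j = i0
      · subst hj
        simpa using hx
      · simpa [Function.update_of_ne hj] using hX j L (y j)
    · have h2 : IsEmpty (X i0).Pt := not_nonempty_iff.1 hne
      have h3 : prodCycle d = 0 := by
        ext x
        exact (h2.false (x i0)).elim
      refine (QuotientAddGroup.eq_zero_iff _).2 ?_
      change prodCycle d ∈ _
      rw [h3]
      exact AddSubgroup.zero_mem _

omit [CharZero k] in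
/-- compositions of morphisms of curves -/
theorem reg_of_isMor {K K' : Type} [Field K] [Algebra k K] [Field K'] [Algebra k K']
    {f : Place k K → Place k K'} (hf : (curve k K').IsMor K f) :
    Reg (X := curve k K) (Y := curve k K') f := by
  intro L _ _ x hx
  rcases hx with ⟨Q, hQ⟩ | ⟨φ, hφ⟩
  · exact Or.inl ⟨f Q, fun P => congrArg f (hQ P)⟩
  · rcases hf with ⟨Q, hQ⟩ | ⟨ψ, hψ⟩
    · exact Or.inl ⟨Q, fun P => hQ _⟩
    · refine Or.inr ⟨φ.comp ψ, fun P => ?_⟩
      obtain ⟨e, he, h1⟩ := hφ P
      obtain ⟨e', he', h2⟩ := hψ (x P)
      refine ⟨e * e', Nat.mul_pos he he', fun z => ?_⟩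
      rw [AlgHom.comp_apply, h1, h2]
      push_cast
      ring

/-- the push-forward of an exterior product -/
theorem prodCycle_map {n : ℕ} {A B : Fin n → Type} (f : ∀ i, A i → B i)
    (b : ∀ i, A i →₀ ℤ) :
    prodCycle (fun i => Finsupp.mapDomain (f i) (b i)) =
      Finsupp.mapDomain (fun (x : ∀ i, A i) i => f i (x i)) (prodCycle b) := by
  classical
  let f1 : MultilinearMap ℤ (fun i : Fin n => A i →₀ ℤ) ((∀ i, B i) →₀ ℤ) :=
    (prodCycleM B).compLinearMap
      fun i => (Finsupp.mapDomain.addMonoidHom (f i) : (A i →₀ ℤ) →+ _).toIntLinearMap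
  let f2 : MultilinearMap ℤ (fun i : Fin n => A i →₀ ℤ) ((∀ i, B i) →₀ ℤ) :=
    (Finsupp.mapDomain.addMonoidHom (fun (x : ∀ i, A i) i => f i (x i)) :
      ((∀ i, A i) →₀ ℤ) →+ _).toIntLinearMap.compMultilinearMap (prodCycleM A)
  have h : f1 = f2 := by
    refine Module.Basis.ext_multilinear (fun _ => Finsupp.basisSingleOne) ?_
    intro x
    change prodCycle (fun i => Finsupp.mapDomain (f i) (Finsupp.basisSingleOne (x i))) =
      Finsupp.mapDomain (fun (x : ∀ i, A i) i => f i (x i))
        (prodCycle fun i => Finsupp.basisSingleOne (x i))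
    simp only [Finsupp.coe_basisSingleOne, Finsupp.mapDomain_single]
    rw [prodCycle_single, prodCycle_single, Finsupp.mapDomain_single]
  exact congrArg (fun g : MultilinearMap ℤ (fun i : Fin n => A i →₀ ℤ) ((∀ i, B i) →₀ ℤ) => g b) h

/-- the push-forward of an exterior product from the power of a curve -/
theorem prodCycle_push {n : ℕ} {A : Type} {B : Fin n → Type} (f : ∀ i, A → B i)
    (b : Fin n → A →₀ ℤ) :
    prodCycle (fun i => Finsupp.mapDomain (f i) (b i)) =
      Finsupp.mapDomain (fun (x : Fin n → A) i => f i (x i)) (ext b) :=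
  prodCycle_map f b

theorem dg_eq_sum {A : Type} (D : A →₀ ℤ) : dg D = D.sum fun _ m => m := by
  simp only [dg, Finsupp.liftAddHom_apply]
  rfl

theorem mapDomain_const {A B : Type} (y : B) (d : A →₀ ℤ) :
    Finsupp.mapDomain (fun _ => y) d = Finsupp.single y (dg d) := by
  induction d using Finsupp.induction_linear with
  | zero => simp
  | add u v hu hv => rw [Finsupp.mapDomain_add, hu, hv, map_add, Finsupp.single_add]
  | single x c => rw [Finsupp.mapDomain_single, dg_single]

/-- The push-forward of an exterior product to a factor is zero, if another one of the zero-cycles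
has degree zero. -/
theorem prodCycle_proj {n : ℕ} {A : Fin n → Type} (a : ∀ i, A i →₀ ℤ) {i j : Fin n} (hij : j ≠ i)
    (hj : dg (a j) = 0) : Finsupp.mapDomain (fun x : ∀ i, A i => x i) (prodCycle a) = 0 := by
  classical
  by_cases hne : Nonempty (A j)
  · obtain ⟨y⟩ := hne
    let f : ∀ l, A l → A l := fun l x => if h : l = j then (by rw [h]; exact y) else x
    have h1 := prodCycle_map f a
    have h2 : prodCycle (fun l => Finsupp.mapDomain (f l) (a l)) = 0 := by
      rw [← prodCycleM_apply]
      refine MultilinearMap.map_coord_zero _ j ?_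
      have h3 : f j = fun _ => y := by
        funext x
        simp [f]
      rw [h3, mapDomain_const, hj, Finsupp.single_zero]
    have h3 : (fun x : ∀ i, A i => x i) = (fun x : ∀ i, A i => x i) ∘
        (fun (x : ∀ i, A i) l => f l (x l)) := by
      funext x
      simp [f, Ne.symm hij]
    rw [h3, Finsupp.mapDomain_comp, ← h1, h2, Finsupp.mapDomain_zero]
  · have h2 : IsEmpty (A j) := not_nonempty_iff.1 hne
    have h3 : prodCycle a = 0 := by
      ext x
      exact (h2.false (x j)).elim
    rw [h3, Finsupp.mapDomain_zero]

end

end Pool.Agent.J4.H27.BB
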