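import Pool.Agent.J4.H27.BB.Comb
import Pool.Agent.J4.H27.BB.Pi

/-!
# Exterior products of zero-cycles from a group of divisors of finite rank
-/

set_option autoImplicit false

open FF Pool.Agent.J4.H17.ZC

namespace Pool.Agent.J4.H27.BB

section

variable {A : Type} {n : ℕ}

/-- the signs of the operator `x ↦ x - o` -/
def eps : Fin 2 → ℤ := ![1, -1]

/-- the maps of the operator `x ↦ x - o` -/
def tht (o : A) : Fin 2 → A → A := ![fun x => x, fun _ => o]

theorem ec_eps (o x : A) : ec eps (tht o) x = Finsupp.single x 1 - Finsupp.single o 1 := by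
  unfold ec
  rw [Fin.sum_univ_two]
  change (1 : ℤ) • Finsupp.single x 1 + (-1 : ℤ) • Finsupp.single o 1 = _
  rw [one_smul, neg_smul, one_smul]
  abel

theorem lec_eps (o : A) (d : A →₀ ℤ) : lec eps (tht o) d = d - Finsupp.single o (dg d) := by
  induction d using Finsupp.induction_linear with
  | zero => simp
  | add u v hu hv =>
    rw [map_add, hu, hv, map_add, Finsupp.single_add]
    abel
  | single x c =>
    rw [lec_single, ec_eps, dg_single, smul_sub, Finsupp.smul_single, Finsupp.smul_single,
      smul_eq_mul, mul_one]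

variable {k : Type} [Field k] [CharZero k] {K : Type} [Field K] [Algebra k K]

omit [CharZero k] in
theorem tht_reg (o : Place k K) (j : Fin 2) :
    Reg (X := curve k K) (Y := curve k K) (tht o j) := by
  intro L _ _ x hx
  fin_cases j
  · exact hx
  · exact Or.inl ⟨o, fun _ => rfl⟩

/-- the functional `z ↦ l (z with all the points x replaced by x - o)` -/
noncomputable def LL (o : Place k K) (l : ((Fin n → Place k K) →₀ ℤ) →+ ℚ) :
    ((Fin n → Place k K) →₀ ℤ) →+ ℚ :=
  l.comp (EE eps (tht o) n)

theorem LL_rat (o : Place k K) {l : ((Fin n → Place k K) →₀ ℤ) →+ ℚ}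
    (hl : ∀ r ∈ RatEq ((curve k K).pow (Fin n)), l r = 0) {r : (Fin n → Place k K) →₀ ℤ}
    (hr : r ∈ RatEq ((curve k K).pow (Fin n))) : LL o l r = 0 :=
  hl _ (EE_mem (X := curve k K) eps (tht o) (tht_reg o) hr)

omit [CharZero k] in
theorem LL_single (o : Place k K) (l : ((Fin n → Place k K) →₀ ℤ) →+ ℚ) (x : Fin n → Place k K)
    {i : Fin n} (hi : x i = o) : LL o l (Finsupp.single x 1) = 0 := by
  unfold LL
  rw [AddMonoidHom.comp_apply, EE_single, ← extM_apply,
    MultilinearMap.map_coord_zero _ i, map_zero]
  rw [ec_eps, hi, sub_self]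

omit [CharZero k] in
theorem LL_ext (o : Place k K) (l : ((Fin n → Place k K) →₀ ℤ) →+ ℚ)
    (d : Fin n → Place k K →₀ ℤ) (hd : ∀ i, dg (d i) = 0) : LL o l (ext d) = l (ext d) := by
  unfold LL
  rw [AddMonoidHom.comp_apply, EE_ext]
  congr 2
  funext i
  rw [lec_eps, hd, Finsupp.single_zero, sub_zero]

end

section

variable {k : Type} [Field k] [CharZero k] [IsAlgClosed k] {K : Type} [Field K] [Algebra k K]
  [IsFF k K] {n : ℕ}

/-- Equal degree zero divisors in `g + 1` positions. -/
theorem case_genus {g : ℕ} (hg : HasGenus k K g) {l : ((Fin n → Place k K) →₀ ℤ) →+ ℚ}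
    (hl : ∀ r ∈ RatEq ((curve k K).pow (Fin n)), l r = 0) (T : Finset (Fin n))
    (hT : T.card = g + 1) (d : Fin n → Place k K →₀ ℤ) (hd : ∀ i ∈ T, ∀ j ∈ T, d i = d j)
    (h0 : ∀ i, dg (d i) = 0) : l (ext d) = 0 := by
  classical
  obtain ⟨o, -⟩ := exists_place (k := k) (K := K)
  let Λ : MultilinearMap ℤ (fun _ : Fin n => Place k K →₀ ℤ) ℚ :=
    (LL o l).toIntLinearMap.compMultilinearMap (extM (Place k K) n)
  have h1 : (∑ τ ∈ PT T, Λ.domDomCongr τ) = 0 := by
    refine Module.Basis.ext_multilinear (fun _ => Finsupp.basisSingleOne) ?_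
    intro s
    rw [sum_apply]
    simp only [MultilinearMap.domDomCongr_apply, zero_apply,
      Finsupp.coe_basisSingleOne]
    obtain ⟨N, hN, h2⟩ := sym_rel hg (X := curve k K) (curve_const K) (fun _ u => u)
      (fun _ L _ _ x hx => hx) o eps (tht o) (tht_reg o)
      (fun _ => by rw [ec_eps, sub_self]) T hT s s
    have h3 := hl _ h2
    rw [map_nsmul, map_sum] at h3
    rcases smul_eq_zero.1 h3 with h4 | h4
    · omega
    · rw [← h4]
      refine Finset.sum_congr rfl fun τ _ => ?_
      change LL o l (ext fun i => Finsupp.single (s (τ i)) 1) = _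
      rw [ext_single]
      unfold LL
      rw [AddMonoidHom.comp_apply, EE_single]
  have h2 := congrArg (fun f : MultilinearMap ℤ (fun _ : Fin n => Place k K →₀ ℤ) ℚ => f d) h1
  simp only [sum_apply, MultilinearMap.domDomCongr_apply,
    zero_apply] at h2
  have h3 : ∀ τ ∈ PT T, Λ (fun i => d (τ i)) = l (ext d) := by
    intro τ hτ
    have h4 : (fun i => d (τ i)) = d := by
      funext i
      rw [mem_PT] at hτ
      by_cases hi : i ∈ T
      · refine hd _ ?_ _ hi
        by_contra h5
        have h6 := hτ _ h5
        exact h5 (by rw [τ.injective h6]; exact hi)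
      · rw [hτ i hi]
    rw [h4]
    exact LL_ext o l d h0
  rw [Finset.sum_congr rfl h3, Finset.sum_const, nsmul_eq_mul] at h2
  rcases mul_eq_zero.1 h2 with h5 | h5
  · have h6 : (PT T).card = 0 := by exact_mod_cast h5
    rw [Finset.card_eq_zero] at h6
    have h7 : (1 : Equiv.Perm (Fin n)) ∈ PT T := by
      rw [mem_PT]
      intro x _
      rfl
    rw [h6] at h7
    simp at h7
  · exact h5

/-- The divisor `q - o` in `ν + 1` positions, if `q + E - (ν + 1) o` is a torsion class. -/
theorem case_point {l : ((Fin n → Place k K) →₀ ℤ) →+ ℚ}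
    (hl : ∀ r ∈ RatEq ((curve k K).pow (Fin n)), l r = 0) (T : Finset (Fin n)) {ν : ℕ}
    (hT : T.card = ν + 1) (q o : Place k K) (E : Place k K →₀ ℤ) (hE : 0 ≤ E)
    (hEd : dg E = ν) {N : ℕ} (hN : 0 < N) {h : K} (hh : h ≠ 0)
    (hdiv : N • (Finsupp.single q 1 + E - (ν + 1) • Finsupp.single o 1) = divisor k h)
    (d : Fin n → Place k K →₀ ℤ)
    (hd : ∀ i ∈ T, d i = Finsupp.single q 1 - Finsupp.single o 1)
    (h0 : ∀ i, dg (d i) = 0) : l (ext d) = 0 := by
  classical
  obtain ⟨r, hr⟩ := enum (ι := Fin (ν + 1)) (Finsupp.single q 1 + E)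
    (add_nonneg (by
      intro x
      rw [Finsupp.single_apply]
      split_ifs <;> simp) hE) (by
      rw [map_add, dg_single, hEd, Fintype.card_fin]
      push_cast
      ring)
  obtain ⟨t0, ht0⟩ : ∃ t0, r t0 = q := by
    have h1 := DFunLike.congr_fun hr q
    rw [tot_apply, Finsupp.add_apply, Finsupp.single_eq_same] at h1
    have h2 : 0 ≤ E q := hE q
    have h3 : 0 < (Finset.univ.filter fun i => r i = q).card := by omega
    obtain ⟨i, hi⟩ := Finset.card_pos.1 h3
    exact ⟨i, (Finset.mem_filter.1 hi).2⟩
  -- the relation for the points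
  have key : ∀ y : Fin n → Place k K,
      LL o l (Finsupp.single (fun i => if i ∈ T then q else y i) 1) = 0 := by
    intro y
    let pt : ({i // i ∈ T} → Fin (ν + 1)) → Fin n → Place k K := fun φ i =>
      if hi : i ∈ T then r (φ ⟨i, hi⟩) else y i
    let M : ({i // i ∈ T} → Fin (ν + 1)) → ℚ := fun φ => LL o l (Finsupp.single (pt φ) 1)
    have hM : ∀ S : Finset {i // i ∈ T}, S.Nonempty → ∀ φ : {i // i ∈ T} → Fin (ν + 1),
        ∑ t, M (fun i => if i ∈ S then t else φ i) = 0 := by
      intro S hS φ
      let F : Place k K → Fin n → Place k K := fun x i =>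
        if hi : i ∈ T then (if (⟨i, hi⟩ : {i // i ∈ T}) ∈ S then x else r (φ ⟨i, hi⟩)) else y i
      have hF : Reg (X := curve k K) (Y := (curve k K).pow (Fin n)) F := by
        intro L _ _ x hx i
        by_cases hi : i ∈ T
        · by_cases hi' : (⟨i, hi⟩ : {i // i ∈ T}) ∈ S
          · have h2 : (fun P => F (x P) i) = x := by
              funext P
              simp only [F, hi, hi', dite_true, if_true]
            rw [h2]
            exact hx
          · have h2 : (fun P => F (x P) i) = fun _ : Place k L => r (φ ⟨i, hi⟩) := by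
              funext P
              simp only [F, hi, hi', dite_true, if_false]
            rw [h2]
            exact curve_const K L _
        · have h2 : (fun P => F (x P) i) = fun _ : Place k L => y i := by
            funext P
            simp only [F, hi, dite_false]
          rw [h2]
          exact curve_const K L _
      have hid : (curve k K).IsMor K (fun P => P) :=
        Or.inr ⟨AlgHom.id k K, fun P => ⟨1, one_pos, fun g => by simp⟩⟩
      have h1 : Finsupp.mapDomain F (divisor k h) ∈ RatEq ((curve k K).pow (Fin n)) := by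
        have h2 := mem_ratEq (X := curve k K) (L := K) hid hh
        have h3 : Finsupp.mapDomain (fun P : Place k K => P) (divisor k h) = divisor k h :=
          Finsupp.mapDomain_id
        rw [h3] at h2
        exact hF.push h2
      have h2 := LL_rat o hl h1
      rw [← hdiv, ← hr] at h2
      have h3 : Finsupp.mapDomain F (N • (tot r - (ν + 1) • Finsupp.single o 1)) =
          N • (∑ t, Finsupp.single (F (r t)) 1 - (ν + 1) • Finsupp.single (F o) 1) := by
        have h4 := map_nsmul (Finsupp.mapDomain.addMonoidHom F)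
          N (tot r - (ν + 1) • Finsupp.single o (1 : ℤ))
        refine h4.trans ?_
        rw [map_sub, map_nsmul]
        unfold tot
        rw [map_sum]
        change N • (∑ t, Finsupp.mapDomain F (Finsupp.single (r t) 1) -
          (ν + 1) • Finsupp.mapDomain F (Finsupp.single o 1)) = _
        simp only [Finsupp.mapDomain_single]
      rw [h3, map_nsmul, map_sub, map_sum, map_nsmul] at h2
      obtain ⟨⟨i1, hi1⟩, hi1S⟩ := hS
      have h5 : LL o l (Finsupp.single (F o) 1) = 0 :=
        LL_single o l (F o) (i := i1) (by simp only [F, hi1, hi1S, dite_true, if_true])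
      rw [h5, smul_zero, sub_zero] at h2
      rcases smul_eq_zero.1 h2 with h6 | h6
      · omega
      · rw [← h6]
        refine Finset.sum_congr rfl fun t _ => ?_
        change LL o l (Finsupp.single (pt fun i => if i ∈ S then t else φ i) 1) = _
        congr 2
        funext i
        simp only [pt, F]
        by_cases hi : i ∈ T
        · simp only [hi, dite_true]
          split_ifs <;> rfl
        · simp only [hi, dite_false]
    have h1 := root_lemma M t0 (by rw [Fintype.card_fin, Fintype.card_coe, hT]) hM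
    have h2 : M (fun _ => t0) = LL o l (Finsupp.single (fun i => if i ∈ T then q else y i) 1) := by
      change LL o l (Finsupp.single (pt fun _ => t0) 1) = _
      congr 2
      funext i
      simp only [pt, ht0]
      split_ifs <;> rfl
    rw [← h2]
    exact h1
  rw [← LL_ext o l d h0]
  let Λ : MultilinearMap ℤ (fun _ : Fin n => Place k K →₀ ℤ) ℚ :=
    (LL o l).toIntLinearMap.compMultilinearMap (extM (Place k K) n)
  refine multi_closure Λ (fun i => {w | ∃ x, w = Finsupp.single x 1 ∧ (i ∈ T → x = q ∨ x = o)})
    Finset.univ d ?_ ?_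
  · intro i _
    by_cases hi : i ∈ T
    · rw [hd i hi]
      refine AddSubgroup.sub_mem _ (AddSubgroup.subset_closure ?_)
        (AddSubgroup.subset_closure ?_)
      · exact ⟨q, rfl, fun _ => Or.inl rfl⟩
      · exact ⟨o, rfl, fun _ => Or.inr rfl⟩
    · refine AddSubgroup.closure_mono ?_ (closure_single (d i))
      rintro w ⟨x, rfl⟩
      exact ⟨x, rfl, fun h => absurd h hi⟩
  · intro d' _ hd'
    choose x hx hx' using fun i => hd' i (Finset.mem_univ i)
    have h1 : d' = fun i => Finsupp.single (x i) 1 := funext hx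
    rw [h1]
    change LL o l (ext fun i => Finsupp.single (x i) 1) = 0
    rw [ext_single]
    by_cases h2 : ∃ i ∈ T, x i = o
    · obtain ⟨i, _, hi⟩ := h2
      exact LL_single o l x hi
    · push Not at h2
      have h3 : x = fun i => if i ∈ T then q else x i := by
        funext i
        split_ifs with hi
        · rcases hx' i hi with h4 | h4
          · exact h4
          · exact absurd h4 (h2 i hi)
        · rfl
      rw [h3]
      exact key x

end

section

variable {k : Type} [Field k] [CharZero k]

/-- The subgroup of the group of the divisors of the curve with function field `K'` which is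
generated by the principal divisors and by the images of the divisors `b j` on the curve with
function field `K` under all morphisms. -/
noncomputable def images (k : Type) [Field k] [CharZero k] {K : Type} [Field K] [Algebra k K]
    (K' : Type) [Field K'] [Algebra k K'] [IsFF k K'] {J : Type} (b : J → Place k K →₀ ℤ) :
    AddSubgroup (Place k K' →₀ ℤ) :=
  AddSubgroup.closure ({D | Principal k K' D} ∪
    {D | ∃ (j : J) (f : Place k K → Place k K'), (curve k K').IsMor K f ∧
      D = Finsupp.mapDomain f (b j)})

/-- `ν + 1` is a bound for the order of nilpotency of the divisor `b` on a curve of genus `g` -/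
def NilpBound (k : Type) [Field k] [CharZero k] (K : Type) [Field K] [Algebra k K] [IsFF k K]
    (g : ℕ) (b : Place k K →₀ ℤ) (ν : ℕ) : Prop :=
  (b.sum (fun _ m => m) = 0 ∧ ν = g) ∨
  ∃ (q o : Place k K) (E : Place k K →₀ ℤ) (N : ℕ),
    b = Finsupp.single q 1 - Finsupp.single o 1 ∧ 0 ≤ E ∧ E.sum (fun _ m => m) = ν ∧ 0 < N ∧
    Principal k K (N • (Finsupp.single q 1 + E - (ν + 1) • Finsupp.single o 1))

theorem dg_images {K : Type} [Field K] [Algebra k K] {K' : Type} [Field K'] [Algebra k K']
    [IsFF k K'] [IsAlgClosed k] {J : Type} {b : J → Place k K →₀ ℤ} (hb : ∀ j, dg (b j) = 0)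
    {D : Place k K' →₀ ℤ} (hD : D ∈ images k K' b) : dg D = 0 := by
  have h : images k K' b ≤ (dg (A := Place k K')).ker := by
    unfold images
    rw [AddSubgroup.closure_le]
    rintro D (⟨f, hf, rfl⟩ | ⟨j, f, -, rfl⟩)
    · exact dg_divisor f
    · change dg (Finsupp.mapDomain f (b j)) = 0
      have h1 : ∀ d : Place k K →₀ ℤ, dg (Finsupp.mapDomain f d) = dg d := by
        intro d
        induction d using Finsupp.induction_linear with
        | zero => simp
        | add u v hu hv => rw [Finsupp.mapDomain_add, map_add, hu, hv, map_add]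
        | single x c => rw [Finsupp.mapDomain_single, dg_single, dg_single]
      rw [h1, hb]
  exact h hD

variable {K : Type} [Field K] [Algebra k K] [IsFF k K]

/-- Reduction to exterior products of the divisors `b j` on the power of one curve. -/
theorem reduce [IsAlgClosed k] {J : Type} (b : J → Place k K →₀ ℤ) (hb : ∀ j, dg (b j) = 0)
    {n : ℕ}
    (H : ∀ l : ((Fin n → Place k K) →₀ ℤ) →+ ℚ, (∀ r ∈ RatEq ((curve k K).pow (Fin n)), l r = 0) →
      ∀ j : Fin n → J, l (ext fun i => b (j i)) = 0)
    (K' : Fin n → Type) [∀ i, Field (K' i)] [∀ i, Algebra k (K' i)]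
    [∀ i, IsFF k (K' i)] (a : ∀ i, Place k (K' i) →₀ ℤ)
    (ha : ∀ i, ∃ N : ℕ, 0 < N ∧ N • a i ∈ images k (K' i) b) :
    (2 ≤ n → ∀ i, Finsupp.mapDomain (fun x : ∀ i, Place k (K' i) => x i) (prodCycle a) = 0) ∧
    ∃ N : ℕ, 0 < N ∧ N • prodCycle a ∈ RatEq (varPi fun i => curve k (K' i)) := by
  classical
  refine ⟨?_, torsion_of_hom _ _ fun l hl => ?_⟩
  · intro hn i
    have : Nontrivial (Fin n) := Fin.nontrivial_iff_two_le.2 hn
    obtain ⟨j, hj⟩ := exists_ne i
    refine prodCycle_proj a hj ?_
    obtain ⟨N, hN, h1⟩ := ha j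
    have h2 := dg_images hb h1
    rw [map_nsmul] at h2
    rcases smul_eq_zero.1 h2 with h3 | h3
    · omega
    · exact h3
  let Λ : MultilinearMap ℤ (fun i => Place k (K' i) →₀ ℤ) ℚ :=
    l.toIntLinearMap.compMultilinearMap (prodCycleM fun i => Place k (K' i))
  choose N hN hNa using ha
  have h1 : Λ (fun i => (N i : ℤ) • a i) = (∏ i, (N i : ℤ)) • Λ a :=
    MultilinearMap.map_smul_univ Λ (fun i => (N i : ℤ)) a
  have h2 : Λ (fun i => (N i : ℤ) • a i) = 0 := by
    refine multi_closure Λ (fun i => {D | Principal k (K' i) D} ∪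
      {D | ∃ (j : J) (f : Place k K → Place k (K' i)), (curve k (K' i)).IsMor K f ∧
        D = Finsupp.mapDomain f (b j)}) Finset.univ _ ?_ ?_
    · intro i _
      have h3 := hNa i
      rw [← natCast_zsmul] at h3
      exact h3
    · intro d _ hd
      change l (prodCycle d) = 0
      by_cases hp : ∃ i, Principal k (K' i) (d i)
      · obtain ⟨i, h, hh, hdi⟩ := hp
        refine hl _ (prodCycle_mem (X := fun i => curve k (K' i)) (fun i => curve_const (K' i)) i d
          ?_)
        have hid : (curve k (K' i)).IsMor (K' i) (fun P => P) :=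
          Or.inr ⟨AlgHom.id k (K' i), fun P => ⟨1, one_pos, fun g => by simp⟩⟩
        have h2 := mem_ratEq (X := curve k (K' i)) (L := K' i) hid hh
        have h3 : Finsupp.mapDomain (fun P : Place k (K' i) => P) (divisor k h) = divisor k h :=
          Finsupp.mapDomain_id
        rw [h3] at h2
        rw [hdi]
        exact h2
      · push Not at hp
        have h3 : ∀ i, ∃ (j : J) (f : Place k K → Place k (K' i)), (curve k (K' i)).IsMor K f ∧
            d i = Finsupp.mapDomain f (b j) := by
          intro i
          rcases hd i (Finset.mem_univ i) with h4 | h4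
          · exact absurd h4 (hp i)
          · exact h4
        choose j f hf hdf using h3
        have h4 : prodCycle d = Finsupp.mapDomain (fun (x : Fin n → Place k K) i => f i (x i))
            (ext fun i => b (j i)) := by
          rw [← prodCycle_push]
          congr 1
          funext i
          exact hdf i
        rw [h4]
        -- the functional on the power of the curve
        let l' : ((Fin n → Place k K) →₀ ℤ) →+ ℚ :=
          l.comp (Finsupp.mapDomain.addMonoidHom fun (x : Fin n → Place k K) i => f i (x i))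
        have hl' : ∀ r ∈ RatEq ((curve k K).pow (Fin n)), l' r = 0 := by
          intro r hr
          refine hl _ (Reg.push (X := (curve k K).pow (Fin n))
            (Y := varPi fun i => curve k (K' i)) (F := fun x i => f i (x i)) ?_ hr)
          intro L _ _ x hx i
          exact reg_of_isMor (hf i) L _ (hx i)
        exact H l' hl' j
  rw [h1] at h2
  rcases smul_eq_zero.1 h2 with h3 | h3
  · rw [Finset.prod_eq_zero_iff] at h3
    obtain ⟨i, _, hi⟩ := h3
    have := hN i
    omega
  · exact h3

/-- the pigeonhole principle -/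
theorem pigeon {n : ℕ} {J : Type} [Fintype J] (ν : J → ℕ) (hn : ∑ j, ν j < n) (j : Fin n → J) :
    ∃ (j0 : J) (T : Finset (Fin n)), T.card = ν j0 + 1 ∧ ∀ i ∈ T, j i = j0 := by
  classical
  obtain ⟨j0, hj0⟩ : ∃ j0, ν j0 < (Finset.univ.filter fun i => j i = j0).card := by
    by_contra hcon
    push Not at hcon
    have h5 : n = ∑ j0, (Finset.univ.filter fun i => j i = j0).card := by
      have h6 := Finset.card_eq_sum_card_fiberwise (s := (Finset.univ : Finset (Fin n)))
        (t := (Finset.univ : Finset J)) (f := j) (by intro _ _; exact Finset.mem_univ _)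
      rw [Finset.card_univ, Fintype.card_fin] at h6
      exact h6
    have h6 : ∑ j0, (Finset.univ.filter fun i => j i = j0).card ≤ ∑ j0, ν j0 :=
      Finset.sum_le_sum fun j0 _ => hcon j0
    omega
  obtain ⟨T, hTs, hT⟩ := Finset.exists_subset_card_eq (show ν j0 + 1 ≤
    (Finset.univ.filter fun i => j i = j0).card from hj0)
  exact ⟨j0, T, hT, fun i hi => (Finset.mem_filter.1 (hTs hi)).2⟩

theorem main_thm [IsAlgClosed k] {g : ℕ} (hg : HasGenus k K g) {J : Type} [Fintype J]
    (b : J → Place k K →₀ ℤ) (ν : J → ℕ) (hb : ∀ j, NilpBound k K g (b j) (ν j)) {n : ℕ}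
    (hn : ∑ j, ν j < n) (K' : Fin n → Type) [∀ i, Field (K' i)] [∀ i, Algebra k (K' i)]
    [∀ i, IsFF k (K' i)] (a : ∀ i, Place k (K' i) →₀ ℤ)
    (ha : ∀ i, ∃ N : ℕ, 0 < N ∧ N • a i ∈ images k (K' i) b) :
    (2 ≤ n → ∀ i, Finsupp.mapDomain (fun x : ∀ i, Place k (K' i) => x i) (prodCycle a) = 0) ∧
    ∃ N : ℕ, 0 < N ∧ N • prodCycle a ∈ RatEq (varPi fun i => curve k (K' i)) := by
  classical
  have h0 : ∀ j, dg (b j) = 0 := by
    intro j
    rcases hb j with ⟨h5, -⟩ | ⟨q, o, E, N, h5, -⟩
    · rw [dg_eq_sum, h5]
    · rw [h5, map_sub, dg_single, dg_single, sub_self]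
  refine reduce b h0 (fun l hl j => ?_) K' a ha
  obtain ⟨j0, T, hT, hjT⟩ := pigeon ν hn j
  rcases hb j0 with ⟨-, h5⟩ | ⟨q, o, E, N, h5, hE, hEd, hN, h, hh, hdiv⟩
  · refine case_genus hg hl T (by rw [hT, h5]) _ ?_ fun i => h0 (j i)
    intro i hi i' hi'
    rw [hjT i hi, hjT i' hi']
  · refine case_point hl T hT q o E hE (by rw [dg_eq_sum, hEd]) hN hh hdiv _ ?_
      fun i => h0 (j i)
    intro i hi
    rw [hjT i hi, h5]

end

end Pool.Agent.J4.H27.BB
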